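import Pool.Agent.W2helper8.ZQ.Stm

/-!
Piece ZQ-TAIL: the tail of the short polynomial.
-/

set_option autoImplicit false

namespace Pool.Agent.W2helper54.ZQ

open Finset Filter Topology MeasureTheory Complex
open Pool.Agent.W2helper8.ZQ
open Pool.Agent.H306R2 (dv)

lemma AA_sub (b a : ℝ) (N Y : ℕ) (h : N ≤ Y) (t : ℝ) :
    AA b a Y t - AA b a N t =
      ∑ n ∈ Ioc N Y, ((dv b n / n : ℝ) : ℂ) * e (-(a * Real.log n * t)) := by
  have hI : ∀ M : ℕ, Icc 1 M = Ioc 0 M := fun M => by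
    ext n; simp only [mem_Icc, mem_Ioc]; omega
  unfold AA
  rw [hI, hI, ← Finset.sum_Ioc_consecutive _ (Nat.zero_le N) h]
  ring

lemma sum_sym (A : Finset ℕ) (H : ℕ × ℕ → ℝ) (h0 : ∀ p, 0 ≤ H p) (hs : ∀ p, H p.swap = H p) :
    ∑ p ∈ A ×ˢ A, H p ≤ 2 * ∑ p ∈ (A ×ˢ A).filter (fun p : ℕ × ℕ => p.2 ≤ p.1), H p := by
  classical
  rw [← Finset.sum_filter_add_sum_filter_not (A ×ˢ A) (fun p : ℕ × ℕ => p.2 ≤ p.1) H, two_mul]
  refine add_le_add le_rfl ?_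
  have h1 : ∑ p ∈ (A ×ˢ A).filter (fun p : ℕ × ℕ => ¬ p.2 ≤ p.1), H p =
      ∑ q ∈ ((A ×ˢ A).filter (fun p : ℕ × ℕ => ¬ p.2 ≤ p.1)).image Prod.swap, H q := by
    rw [Finset.sum_image (fun x _ y _ hxy => Prod.swap_injective hxy)]
    exact Finset.sum_congr rfl fun p _ => (hs p).symm
  rw [h1]
  refine Finset.sum_le_sum_of_subset_of_nonneg ?_ fun p _ _ => h0 p
  intro q hq
  rw [Finset.mem_image] at hq
  obtain ⟨p, hp, rfl⟩ := hq
  rw [mem_filter, mem_product] at hp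
  rw [mem_filter, mem_product]
  exact ⟨⟨hp.1.2, hp.1.1⟩, (not_le.1 hp.2).le⟩

theorem p_tail (h1 : S_TP) (h2 : S_DV) (h3 : S_SUM) (h4 : S_EXPJ) : S_TAIL := by
  intro b a B C ha hB hC ε hε
  obtain ⟨K1, hK1, hTP⟩ := h1 a B C ha hB hC
  set ε₀ : ℝ := min (1 / 16) (1 / (16 * B)) with hε₀
  have hε₀p : 0 < ε₀ := lt_min (by norm_num) (by positivity)
  have hε₀1 : ε₀ ≤ 1 / 16 := min_le_left _ _
  have hε₀2 : ε₀ ≤ 1 / (16 * B) := min_le_right _ _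
  have hBε : B * (4 * ε₀) ≤ 1 / 4 := by
    have : B * (4 * ε₀) ≤ B * (4 * (1 / (16 * B))) := by
      apply mul_le_mul_of_nonneg_left _ hB.le
      linarith
    refine this.trans (le_of_eq ?_)
    field_simp
    norm_num
  obtain ⟨D, hD, hDV⟩ := h2 b ε₀ hε₀p
  obtain ⟨K3, hK3, hSUM⟩ := h3
  have hsumm : Summable (fun n : ℕ => (n : ℝ) ^ (-(1 + ε₀))) :=
    Real.summable_nat_rpow.2 (by linarith)
  set Z : ℝ := ∑' n : ℕ, (n : ℝ) ^ (-(1 + ε₀)) with hZ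
  have hZ0 : 0 ≤ Z := tsum_nonneg fun n => Real.rpow_nonneg (Nat.cast_nonneg n) _
  -- the choice of `N₀`
  have hlim : Tendsto (fun N : ℕ => 2 * D ^ 2 * K1 * K3 * ((N + 1 : ℕ) : ℝ) ^ (-(1 / 8) : ℝ)) atTop (𝓝 0) := by
    have e1 := (tendsto_rpow_neg_atTop (by norm_num : (0 : ℝ) < 1 / 8)).comp
      (tendsto_natCast_atTop_atTop.comp (tendsto_add_atTop_nat 1))
    have e2 := e1.const_mul (2 * D ^ 2 * K1 * K3)
    rw [mul_zero] at e2
    exact e2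
  obtain ⟨N₀, hN₀⟩ := (hlim.eventually (ge_mem_nhds (by positivity : (0 : ℝ) < ε / 2))).exists_forall_of_atTop
  refine ⟨N₀, fun N hN => ?_⟩
  have hbig : ∀ᶠ T : ℝ in atTop, 4 * D ^ 2 * K1 * Z ^ 2 / ε ≤ Real.log T ^ (1 / 4 : ℝ) :=
    ((tendsto_rpow_atTop (by norm_num : (0 : ℝ) < 1 / 4)).comp
      Real.tendsto_log_atTop).eventually_ge_atTop _
  have hlog1 : ∀ᶠ T : ℝ in atTop, 1 ≤ Real.log T := Real.tendsto_log_atTop.eventually_ge_atTop 1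
  filter_upwards [hTP, hbig, hlog1, eventually_gt_atTop (0 : ℝ)] with T hT hbigT hL hT0
  intro κ w hw Y hNY hY
  obtain ⟨f, hf1, hf2⟩ := hT κ w hw
  set L : ℝ := Real.log T with hLd
  have hL0 : 0 < L := by linarith
  set A : Finset ℕ := Ioc N Y with hA
  have hA1 : ∀ n ∈ A, N + 1 ≤ n ∧ n ≤ Y := fun n hn => by
    rw [hA, mem_Ioc] at hn; exact ⟨hn.1, hn.2⟩
  -- expansion
  have hexp := h4 a T w N Y (fun n => dv b n / n) hT0 hw.cont
  have hcongr : (∫ t in (T / 2)..(3 * T), w t * Z2 t * ‖AA b a Y t - AA b a N t‖ ^ 2) =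
      ∫ t in (T / 2)..(3 * T), w t * Z2 t *
        ‖∑ n ∈ Ioc N Y, ((dv b n / n : ℝ) : ℂ) * e (-(a * Real.log n * t))‖ ^ 2 := by
    simp only [AA_sub b a N Y hNY]
  rw [hcongr]
  set II : ℝ := ∫ t in (T / 2)..(3 * T), w t * Z2 t *
        ‖∑ n ∈ Ioc N Y, ((dv b n / n : ℝ) : ℂ) * e (-(a * Real.log n * t))‖ ^ 2 with hII
  -- the symmetric function
  set u : ℕ → ℝ := fun n => |dv b n / n| with hu
  set H : ℕ × ℕ → ℝ := fun p => u p.1 * u p.2 * ‖J w T (a * (Real.log p.1 - Real.log p.2))‖ with hH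
  have hH0 : ∀ p, 0 ≤ H p := fun p => by positivity
  have hHs : ∀ p, H p.swap = H p := by
    intro p
    simp only [hH, Prod.fst_swap, Prod.snd_swap]
    have e1 : a * (Real.log p.2 - Real.log p.1) = -(a * (Real.log p.1 - Real.log p.2)) := by ring
    rw [e1, J_conj, RCLike.norm_conj]
    ring
  have hI1 : II ≤ ∑ p ∈ A ×ˢ A, H p := by
    have e1 : II ≤ ‖(II : ℂ)‖ := by
      rw [Complex.norm_real]; exact le_abs_self _
    refine e1.trans ?_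
    rw [hexp]
    refine (norm_sum_le _ _).trans ?_
    rw [Finset.sum_product_right]
    refine Finset.sum_le_sum fun m _ => ?_
    refine (norm_sum_le _ _).trans (Finset.sum_le_sum fun n _ => ?_)
    rw [norm_mul, Complex.norm_real, Real.norm_eq_abs, abs_mul]
    apply le_of_eq
    simp only [hH, hu]
    ring
  have hI2 := sum_sym A H hH0 hHs
  set S : Finset (ℕ × ℕ) := (A ×ˢ A).filter (fun p : ℕ × ℕ => p.2 ≤ p.1) with hS
  have hSm : ∀ p ∈ S, (N + 1 ≤ p.1 ∧ p.1 ≤ Y) ∧ (N + 1 ≤ p.2 ∧ p.2 ≤ Y) ∧ p.2 ≤ p.1 := by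
    intro p hp
    rw [hS, mem_filter, mem_product] at hp
    exact ⟨hA1 _ hp.1.1, hA1 _ hp.1.2, hp.2⟩
  have hYL : ∀ p ∈ S, (p.1 : ℝ) ≤ L ^ B := fun p hp =>
    le_trans (by exact_mod_cast (hSm p hp).1.2) hY
  have hfp := fun (p : ℕ × ℕ) (hp : p ∈ S) => hf1 p (by have := (hSm p hp).2.1.1; omega) (hSm p hp).2.2 (hYL p hp)
  have hub : ∀ n : ℕ, 1 ≤ n → u n ≤ D * (n : ℝ) ^ (ε₀ - 1) := by
    intro n hn
    have hn0 : (0 : ℝ) < n := by exact_mod_cast hn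
    simp only [hu]
    rw [abs_div, abs_of_pos hn0, Real.rpow_sub hn0, Real.rpow_one, ← mul_div_assoc]
    exact div_le_div_of_nonneg_right (hDV n hn) hn0.le
  have hp0 : ∀ p ∈ S, (1 : ℝ) ≤ p.1 ∧ (1 : ℝ) ≤ p.2 := fun p hp =>
    ⟨by exact_mod_cast (by have := (hSm p hp).1.1; omega : 1 ≤ p.1),
     by exact_mod_cast (by have := (hSm p hp).2.1.1; omega : 1 ≤ p.2)⟩
  have hHb : ∀ p ∈ S, H p ≤ D ^ 2 * K1 * T * (L * (((p.1 : ℝ) * p.2) ^ (-(15 / 16) : ℝ) *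
        (((f p).1 : ℝ) * (f p).2) ^ (-(1 / 2) : ℝ)) +
        Real.sqrt L * ((p.1 : ℝ) ^ (ε₀ - 1) * (p.2 : ℝ) ^ (ε₀ - 1))) := by
    intro p hp
    obtain ⟨q1, q2⟩ := hp0 p hp
    have e1 := hub p.1 (by exact_mod_cast q1)
    have e2 := hub p.2 (by exact_mod_cast q2)
    obtain ⟨-, -, e3⟩ := hfp p hp
    set F : ℝ := (((f p).1 : ℝ) * (f p).2) ^ (-(1 / 2) : ℝ) with hF
    have hF0 : 0 ≤ F := by positivity
    set P1 : ℝ := (p.1 : ℝ) ^ (ε₀ - 1) with hP1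
    set P2 : ℝ := (p.2 : ℝ) ^ (ε₀ - 1) with hP2
    have hP10 : 0 ≤ P1 := by positivity
    have hP20 : 0 ≤ P2 := by positivity
    have e4 : P1 * P2 ≤ ((p.1 : ℝ) * p.2) ^ (-(15 / 16) : ℝ) := by
      rw [hP1, hP2, ← Real.mul_rpow (by linarith) (by linarith)]
      apply Real.rpow_le_rpow_of_exponent_le
      · nlinarith
      · linarith
    have e5 : u p.1 * u p.2 ≤ D ^ 2 * (P1 * P2) := by
      calc u p.1 * u p.2 ≤ (D * P1) * (D * P2) :=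
            mul_le_mul e1 e2 (abs_nonneg _) (by positivity)
        _ = D ^ 2 * (P1 * P2) := by ring
    calc H p = u p.1 * u p.2 * ‖J w T (a * (Real.log p.1 - Real.log p.2))‖ := rfl
      _ ≤ D ^ 2 * (P1 * P2) * (K1 * T * (L * F + Real.sqrt L)) :=
          mul_le_mul e5 e3 (norm_nonneg _) (by positivity)
      _ = D ^ 2 * K1 * T * (L * ((P1 * P2) * F) + Real.sqrt L * (P1 * P2)) := by ring
      _ ≤ D ^ 2 * K1 * T * (L * (((p.1 : ℝ) * p.2) ^ (-(15 / 16) : ℝ) * F) +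
            Real.sqrt L * (P1 * P2)) := by
          apply mul_le_mul_of_nonneg_left _ (by positivity)
          apply add_le_add _ le_rfl
          apply mul_le_mul_of_nonneg_left _ hL0.le
          exact mul_le_mul_of_nonneg_right e4 hF0
  have hI3 : ∑ p ∈ S, H p ≤ D ^ 2 * K1 * T * (L * (K3 * ((N + 1 : ℕ) : ℝ) ^ (-(1 / 8) : ℝ)) +
      Real.sqrt L * (∑ n ∈ A, (n : ℝ) ^ (ε₀ - 1)) ^ 2) := by
    refine (Finset.sum_le_sum hHb).trans ?_
    rw [← Finset.mul_sum, Finset.sum_add_distrib, ← Finset.mul_sum, ← Finset.mul_sum]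
    apply mul_le_mul_of_nonneg_left _ (by positivity)
    apply add_le_add
    · apply mul_le_mul_of_nonneg_left _ hL0.le
      refine hSUM (N + 1) S f (by omega) ?_ ?_
      · intro p hp
        exact ⟨(hSm p hp).1.1, (hSm p hp).2.1.1, (hfp p hp).1, (hfp p hp).2.1⟩
      · intro p hp q hq hpq
        exact hf2 p q (by have := (hSm p hp).2.1.1; omega) (hSm p hp).2.2 (hYL p hp)
          (by have := (hSm q hq).2.1.1; omega) (hSm q hq).2.2 (hYL q hq) hpq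
    · apply mul_le_mul_of_nonneg_left _ (Real.sqrt_nonneg _)
      rw [pow_two, Finset.sum_mul_sum, ← Finset.sum_product']
      refine Finset.sum_le_sum_of_subset_of_nonneg (Finset.filter_subset _ _) fun p _ _ => ?_
      positivity
  have hI4 : ∑ n ∈ A, (n : ℝ) ^ (ε₀ - 1) ≤ (Y : ℝ) ^ (2 * ε₀) * Z := by
    have e1 : ∀ n ∈ A, (n : ℝ) ^ (ε₀ - 1) ≤ (Y : ℝ) ^ (2 * ε₀) * (n : ℝ) ^ (-(1 + ε₀)) := by
      intro n hn
      have hn0 : (0 : ℝ) < n := by exact_mod_cast (by have := (hA1 n hn).1; omega : 0 < n)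
      have e2 : (n : ℝ) ^ (ε₀ - 1) = (n : ℝ) ^ (2 * ε₀) * (n : ℝ) ^ (-(1 + ε₀)) := by
        rw [← Real.rpow_add hn0]
        congr 1
        ring
      rw [e2]
      apply mul_le_mul_of_nonneg_right _ (by positivity)
      apply Real.rpow_le_rpow hn0.le _ (by positivity)
      exact_mod_cast (hA1 n hn).2
    refine (Finset.sum_le_sum e1).trans ?_
    rw [← Finset.mul_sum]
    apply mul_le_mul_of_nonneg_left _ (by positivity)
    exact hsumm.sum_le_tsum A fun n _ => Real.rpow_nonneg (Nat.cast_nonneg n) _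
  have hI5 : (∑ n ∈ A, (n : ℝ) ^ (ε₀ - 1)) ^ 2 ≤ L ^ (1 / 4 : ℝ) * Z ^ 2 := by
    have e1 : (∑ n ∈ A, (n : ℝ) ^ (ε₀ - 1)) ^ 2 ≤ ((Y : ℝ) ^ (2 * ε₀) * Z) ^ 2 := by
      apply pow_le_pow_left₀ _ hI4
      exact Finset.sum_nonneg fun n _ => Real.rpow_nonneg (Nat.cast_nonneg n) _
    refine e1.trans ?_
    rw [mul_pow]
    apply mul_le_mul_of_nonneg_right _ (by positivity)
    have hY0 : (0 : ℝ) ≤ Y := Nat.cast_nonneg Y
    calc ((Y : ℝ) ^ (2 * ε₀)) ^ 2 = (Y : ℝ) ^ (4 * ε₀) := by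
          rw [← Real.rpow_natCast, ← Real.rpow_mul hY0]
          congr 1
          push_cast
          ring
      _ ≤ (L ^ B) ^ (4 * ε₀) := Real.rpow_le_rpow hY0 hY (by positivity)
      _ = L ^ (B * (4 * ε₀)) := by rw [← Real.rpow_mul hL0.le]
      _ ≤ L ^ (1 / 4 : ℝ) := Real.rpow_le_rpow_of_exponent_le hL hBε
  have hsq : Real.sqrt L * L ^ (1 / 4 : ℝ) * L ^ (1 / 4 : ℝ) = L := by
    rw [Real.sqrt_eq_rpow, ← Real.rpow_add hL0, ← Real.rpow_add hL0]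
    norm_num
  have hfin1 : 2 * D ^ 2 * K1 * K3 * ((N + 1 : ℕ) : ℝ) ^ (-(1 / 8) : ℝ) ≤ ε / 2 := hN₀ N hN
  have hfin2 : 4 * D ^ 2 * K1 * Z ^ 2 ≤ ε * L ^ (1 / 4 : ℝ) := by
    rw [div_le_iff₀ hε] at hbigT
    linarith
  have hs0 := Real.sqrt_nonneg L
  have hL4 : 0 ≤ L ^ (1 / 4 : ℝ) := by positivity
  calc II ≤ 2 * ∑ p ∈ S, H p := hI1.trans hI2
    _ ≤ 2 * (D ^ 2 * K1 * T * (L * (K3 * ((N + 1 : ℕ) : ℝ) ^ (-(1 / 8) : ℝ)) +
          Real.sqrt L * (L ^ (1 / 4 : ℝ) * Z ^ 2))) := by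
        apply mul_le_mul_of_nonneg_left _ (by norm_num)
        refine hI3.trans ?_
        apply mul_le_mul_of_nonneg_left _ (by positivity)
        apply add_le_add le_rfl
        exact mul_le_mul_of_nonneg_left hI5 hs0
    _ = T * L * (2 * D ^ 2 * K1 * K3 * ((N + 1 : ℕ) : ℝ) ^ (-(1 / 8) : ℝ)) +
          T * (Real.sqrt L * L ^ (1 / 4 : ℝ)) / 2 * (4 * D ^ 2 * K1 * Z ^ 2) := by ring
    _ ≤ T * L * (ε / 2) + T * (Real.sqrt L * L ^ (1 / 4 : ℝ)) / 2 * (ε * L ^ (1 / 4 : ℝ)) := by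
        apply add_le_add
        · exact mul_le_mul_of_nonneg_left hfin1 (by positivity)
        · exact mul_le_mul_of_nonneg_left hfin2 (by positivity)
    _ = T * L * (ε / 2) + T * (Real.sqrt L * L ^ (1 / 4 : ℝ) * L ^ (1 / 4 : ℝ)) * (ε / 2) := by ring
    _ = ε * (T * L) := by rw [hsq]; ring

end Pool.Agent.W2helper54.ZQ
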