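import Pool.Agent.W2helper8.ZQ.Stm
import Pool.Agent.W2helper26.TR.Rect

/-!
Piece ZQ-VB: Cauchy's formula on the rectangle.
-/

set_option autoImplicit false

namespace Pool.Agent.W2helper54.ZQ

open Finset Filter Topology MeasureTheory Complex
open Pool.Agent.W2helper8.ZQ
open Pool.Agent.W2helper26.TR (RI RI_cauchyOn)

/-- the weight -/
noncomputable def Gx (X : ℝ) (z : ℂ) : ℂ := Complex.exp (Real.log X * z + z ^ 2)

lemma norm_Gx (X : ℝ) (hX : 1 ≤ X) (x y : ℝ) :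
    ‖Gx X ((x : ℂ) + y * I)‖ = X ^ x * Real.exp (x ^ 2 - y ^ 2) := by
  unfold Gx
  rw [Complex.norm_exp]
  have h : (Real.log X * ((x : ℂ) + y * I) + ((x : ℂ) + y * I) ^ 2).re
      = Real.log X * x + (x ^ 2 - y ^ 2) := by
    simp [pow_two]
  rw [h, Real.exp_add, Real.rpow_def_of_pos (by linarith)]

theorem p_vb : S_VB := by
  intro F U X η H c B hU hF hX hη hη1 hc hc1 hH hB hb
  have hX0 : (0 : ℝ) < X := by linarith
  have hH0 : (0 : ℝ) < H := by linarith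
  -- Cauchy
  have hsub : (Set.Icc (-η) c ×ℂ Set.Icc (-H) H) ⊆ U := by
    rintro z ⟨h1, h2⟩
    exact (hb z h1.1 h1.2 (abs_le.2 h2)).1
  have hd : DifferentiableOn ℂ (fun z => F z * Gx X z) (Set.Icc (-η) c ×ℂ Set.Icc (-H) H) := by
    refine (hF.mono hsub).mul ?_
    unfold Gx
    fun_prop
  have h0 : (0 : ℂ) ∈ Set.Ioo (-η) c ×ℂ Set.Ioo (-H) H := by
    refine ⟨⟨?_, ?_⟩, ⟨?_, ?_⟩⟩ <;> simp <;> linarith
  have hC := RI_cauchyOn (by linarith : -η < c) (by linarith : -H < H) hd h0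
  simp only [sub_zero] at hC
  have hG0 : Gx X 0 = 1 := by simp [Gx]
  rw [hG0, mul_one] at hC
  -- bounds for the sides
  have hFb : ∀ x y : ℝ, -η ≤ x → x ≤ c → |y| ≤ H → ‖F ((x : ℂ) + y * I)‖ ≤ B := by
    intro x y h1 h2 h3
    refine (hb _ ?_ ?_ ?_).2 <;> simpa
  have hmk : ∀ x y : ℝ, (⟨x, y⟩ : ℂ) = (x : ℂ) + y * I := Pool.Agent.W2helper26.TR.mk_eq
  have hexp1 : Real.exp 1 ≤ 3 := by linarith [Real.exp_one_lt_d9]
  -- horizontal sides
  have hhor : ∀ s : ℝ, |s| = H → ‖∫ x in (-η)..c, F ⟨x, s⟩ * Gx X ⟨x, s⟩ * (⟨x, s⟩ : ℂ)⁻¹‖ ≤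
      6 * B * (X ^ c * Real.exp (-(H ^ 2))) := by
    intro s hs
    have hs2 : s ^ 2 = H ^ 2 := by rw [← sq_abs, hs]
    have h1 := intervalIntegral.norm_integral_le_of_norm_le_const (a := -η) (b := c)
      (f := fun x : ℝ => F ⟨x, s⟩ * Gx X ⟨x, s⟩ * (⟨x, s⟩ : ℂ)⁻¹)
      (C := B * (X ^ c * (3 * Real.exp (-(H ^ 2))))) (by
        intro x hx
        rw [Set.uIoc_of_le (by linarith)] at hx
        rw [hmk, norm_mul, norm_mul, norm_Gx X hX, norm_inv]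
        have e1 := hFb x s hx.1.le hx.2 hs.le
        have e2 : X ^ x ≤ X ^ c := Real.rpow_le_rpow_of_exponent_le hX hx.2
        have e3 : Real.exp (x ^ 2 - s ^ 2) ≤ 3 * Real.exp (-(H ^ 2)) := by
          rw [hs2, sub_eq_add_neg, Real.exp_add]
          refine mul_le_mul_of_nonneg_right ?_ (Real.exp_pos _).le
          refine le_trans (Real.exp_le_exp.2 ?_) hexp1
          have : |x| ≤ 1 := abs_le.2 ⟨by linarith [hx.1], by linarith [hx.2]⟩
          rw [← sq_abs]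
          nlinarith [abs_nonneg x]
        have e4 : ‖(x : ℂ) + s * I‖⁻¹ ≤ 1 := by
          apply inv_le_one_of_one_le₀
          have : |((x : ℂ) + s * I).im| ≤ ‖(x : ℂ) + s * I‖ := Complex.abs_im_le_norm _
          have e5 : ((x : ℂ) + s * I).im = s := by simp
          rw [e5, hs] at this
          linarith
        have p1 : 0 ≤ X ^ x * Real.exp (x ^ 2 - s ^ 2) := by positivity
        calc ‖F ((x : ℂ) + s * I)‖ * (X ^ x * Real.exp (x ^ 2 - s ^ 2)) * ‖(x : ℂ) + s * I‖⁻¹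
            ≤ ‖F ((x : ℂ) + s * I)‖ * (X ^ x * Real.exp (x ^ 2 - s ^ 2)) * 1 :=
              mul_le_mul_of_nonneg_left e4 (by positivity)
          _ = ‖F ((x : ℂ) + s * I)‖ * (X ^ x * Real.exp (x ^ 2 - s ^ 2)) := mul_one _
          _ ≤ B * (X ^ c * (3 * Real.exp (-(H ^ 2)))) :=
              mul_le_mul e1 (mul_le_mul e2 e3 (Real.exp_pos _).le (by positivity)) p1 hB)
    refine h1.trans ?_
    have e6 : |c - -η| ≤ 2 := by rw [abs_of_pos (by linarith)]; linarith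
    have p2 : 0 ≤ B * (X ^ c * (3 * Real.exp (-(H ^ 2)))) := by positivity
    calc B * (X ^ c * (3 * Real.exp (-(H ^ 2)))) * |c - -η|
        ≤ B * (X ^ c * (3 * Real.exp (-(H ^ 2)))) * 2 := mul_le_mul_of_nonneg_left e6 p2
      _ = 6 * B * (X ^ c * Real.exp (-(H ^ 2))) := by ring
  -- the left side
  have hleft : ‖∫ y in (-H)..H, F ⟨-η, y⟩ * Gx X ⟨-η, y⟩ * (⟨-η, y⟩ : ℂ)⁻¹‖ ≤
      6 * B * (X ^ (-η) / η) := by
    have hint : Integrable (fun y : ℝ => B * (X ^ (-η) * 3) / η * Real.exp (-1 * y ^ 2)) := by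
      exact (integrable_exp_neg_mul_sq one_pos).const_mul _
    have h1 : ‖∫ y in (-H)..H, F ⟨-η, y⟩ * Gx X ⟨-η, y⟩ * (⟨-η, y⟩ : ℂ)⁻¹‖ ≤
        ∫ y in (-H)..H, B * (X ^ (-η) * 3) / η * Real.exp (-1 * y ^ 2) := by
      refine intervalIntegral.norm_integral_le_of_norm_le (by linarith) ?_
        hint.intervalIntegrable
      refine Filter.Eventually.of_forall fun y hy => ?_
      rw [hmk, norm_mul, norm_mul, norm_Gx X hX, norm_inv]
      have e1 := hFb (-η) y le_rfl (by linarith) (abs_le.2 ⟨hy.1.le, hy.2⟩)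
      have e4 : ‖((-η : ℝ) : ℂ) + y * I‖⁻¹ ≤ 1 / η := by
        rw [one_div]
        apply inv_anti₀ hη
        have : |(((-η : ℝ) : ℂ) + y * I).re| ≤ ‖((-η : ℝ) : ℂ) + y * I‖ := Complex.abs_re_le_norm _
        have e5 : (((-η : ℝ) : ℂ) + y * I).re = -η := by simp
        rw [e5, abs_neg, abs_of_pos hη] at this
        exact this
      have e3 : Real.exp ((-η) ^ 2 - y ^ 2) ≤ 3 * Real.exp (-1 * y ^ 2) := by
        rw [sub_eq_add_neg, Real.exp_add, neg_one_mul]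
        refine mul_le_mul_of_nonneg_right ?_ (Real.exp_pos _).le
        refine le_trans (Real.exp_le_exp.2 ?_) hexp1
        nlinarith
      have p1 : 0 ≤ X ^ (-η) * Real.exp ((-η) ^ 2 - y ^ 2) := by positivity
      calc ‖F (((-η : ℝ) : ℂ) + y * I)‖ * (X ^ (-η) * Real.exp ((-η) ^ 2 - y ^ 2)) *
              ‖((-η : ℝ) : ℂ) + y * I‖⁻¹
          ≤ (B * (X ^ (-η) * (3 * Real.exp (-1 * y ^ 2)))) * (1 / η) := by
            refine mul_le_mul ?_ e4 (by positivity) (by positivity)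
            exact mul_le_mul e1 (mul_le_mul_of_nonneg_left e3 (by positivity)) p1 hB
        _ = B * (X ^ (-η) * 3) / η * Real.exp (-1 * y ^ 2) := by ring
    refine h1.trans ?_
    rw [intervalIntegral.integral_const_mul]
    have h2 : ∫ y in (-H)..H, Real.exp (-1 * y ^ 2) ≤ 2 := by
      rw [intervalIntegral.integral_of_le (by linarith)]
      have h3 : ∫ y in Set.Ioc (-H) H, Real.exp (-1 * y ^ 2) ≤ ∫ y : ℝ, Real.exp (-1 * y ^ 2) :=
        setIntegral_le_integral (integrable_exp_neg_mul_sq one_pos)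
          (Filter.Eventually.of_forall fun y => (Real.exp_pos _).le)
      refine h3.trans ?_
      rw [integral_gaussian, div_one]
      rw [Real.sqrt_le_left (by norm_num)]
      nlinarith [Real.pi_lt_four]
    have p3 : 0 ≤ B * (X ^ (-η) * 3) / η := by positivity
    calc B * (X ^ (-η) * 3) / η * ∫ y in (-H)..H, Real.exp (-1 * y ^ 2)
        ≤ B * (X ^ (-η) * 3) / η * 2 := mul_le_mul_of_nonneg_left h2 p3
      _ = 6 * B * (X ^ (-η) / η) := by ring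
  -- assembly
  have hR : (∫ y in (-H)..H, F ⟨c, y⟩ * Gx X ⟨c, y⟩ * (⟨c, y⟩ : ℂ)⁻¹) =
      ∫ τ in (-H)..H, F (c + τ * I) *
        (Complex.exp (Real.log X * (c + τ * I) + (c + τ * I) ^ 2) / (c + τ * I)) := by
    apply intervalIntegral.integral_congr
    intro y _
    simp only [hmk, Gx, div_eq_mul_inv, mul_assoc]
  rw [← hR]
  unfold RI at hC
  set b1 := ∫ x in (-η)..c, F ⟨x, -H⟩ * Gx X ⟨x, -H⟩ * (⟨x, -H⟩ : ℂ)⁻¹ with hb1
  set b2 := ∫ x in (-η)..c, F ⟨x, H⟩ * Gx X ⟨x, H⟩ * (⟨x, H⟩ : ℂ)⁻¹ with hb2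
  set R := ∫ y in (-H)..H, F ⟨c, y⟩ * Gx X ⟨c, y⟩ * (⟨c, y⟩ : ℂ)⁻¹ with hRd
  set L := ∫ y in (-H)..H, F ⟨-η, y⟩ * Gx X ⟨-η, y⟩ * (⟨-η, y⟩ : ℂ)⁻¹ with hLd
  have n1 := hhor (-H) (by rw [abs_neg, abs_of_pos hH0])
  have n2 := hhor H (abs_of_pos hH0)
  have hpi : (2 * Real.pi : ℂ) ≠ 0 := by
    have := Real.pi_ne_zero
    simp [this]
  have key : F 0 - (1 / (2 * Real.pi : ℂ)) * R =
      (1 / (2 * Real.pi : ℂ)) * (-(I * (b1 - b2)) - L) := by
    have h3 : I * (2 * Real.pi * I * F 0) = I * (b1 - b2 + I * R - I * L) := by rw [← hC]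
    have h4 : -(2 * Real.pi : ℂ) * F 0 = I * (b1 - b2) - R + L := by
      have e1 : I * (2 * Real.pi * I * F 0) = -(2 * Real.pi : ℂ) * F 0 := by
        linear_combination (2 * Real.pi * F 0) * Complex.I_mul_I
      have e2 : I * (b1 - b2 + I * R - I * L) = I * (b1 - b2) - R + L := by
        linear_combination (R - L) * Complex.I_mul_I
      rw [← e1, ← e2, h3]
    field_simp
    linear_combination (-1 : ℂ) * h4
  rw [key, norm_mul]
  have n3 : ‖(1 / (2 * Real.pi : ℂ))‖ ≤ 1 / 6 := by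
    rw [norm_div, norm_one, norm_mul, Complex.norm_real, Real.norm_eq_abs,
      abs_of_pos Real.pi_pos, Complex.norm_ofNat]
    apply one_div_le_one_div_of_le (by norm_num)
    linarith [Real.pi_gt_three]
  have n4 : ‖-(I * (b1 - b2)) - L‖ ≤ ‖b1‖ + ‖b2‖ + ‖L‖ := by
    calc ‖-(I * (b1 - b2)) - L‖ ≤ ‖-(I * (b1 - b2))‖ + ‖L‖ := norm_sub_le _ _
      _ = ‖b1 - b2‖ + ‖L‖ := by rw [norm_neg, norm_mul, Complex.norm_I, one_mul]
      _ ≤ ‖b1‖ + ‖b2‖ + ‖L‖ := by linarith [norm_sub_le b1 b2]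
  have q1 : 0 ≤ B * (X ^ c * Real.exp (-(H ^ 2))) := by positivity
  have q2 : 0 ≤ B * (X ^ (-η) / η) := by positivity
  calc ‖(1 / (2 * Real.pi : ℂ))‖ * ‖-(I * (b1 - b2)) - L‖
      ≤ 1 / 6 * (‖b1‖ + ‖b2‖ + ‖L‖) := mul_le_mul n3 n4 (norm_nonneg _) (by norm_num)
    _ ≤ 10 * B * (X ^ (-η) / η + X ^ c * Real.exp (-(H ^ 2))) := by nlinarith
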